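import Pool.Agent.R970.WM.PWb
import Pool.Agent.TH264.Bridge.PW

/-! Peter-Weyl for general compact second countable groups, in the form used for extensions. -/

open MeasureTheory Set Filter Topology

namespace Pool.Agent.N255.GE

open R970.WM R970.WM.PWbAux

section

variable {G : Type} [Group G] [TopologicalSpace G] [IsTopologicalGroup G] [CompactSpace G]

/-- matrix coefficient of a continuous matrix representation -/
noncomputable def cf {N : ℕ} (ρ : G →* Matrix (Fin N) (Fin N) ℂ) (hρ : Continuous ρ)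
    (i j : Fin N) : C(G, ℂ) :=
  ⟨fun y => ρ y i j, (continuous_apply j).comp ((continuous_apply i).comp hρ)⟩

/-- the finite set of matrix coefficients -/
noncomputable def SS {N : ℕ} (ρ : G →* Matrix (Fin N) (Fin N) ℂ) (hρ : Continuous ρ) :
    Set C(G, ℂ) := range (fun p : Fin N × Fin N => cf ρ hρ p.1 p.2)

/-- generating space -/
noncomputable def FG0 {N : ℕ} (ρ : G →* Matrix (Fin N) (Fin N) ℂ) (hρ : Continuous ρ) :
    Submodule ℂ C(G, ℂ) := Submodule.span ℂ ({1} ∪ (SS ρ hρ ∪ star (SS ρ hρ)))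

lemma FG0_fg {N : ℕ} (ρ : G →* Matrix (Fin N) (Fin N) ℂ) (hρ : Continuous ρ) :
    (FG0 ρ hρ).FG := by
  apply Submodule.fg_span
  apply (finite_singleton _).union
  have h0 : (SS ρ hρ).Finite := finite_range _
  apply h0.union
  have := h0.image star
  rwa [image_star] at this

lemma one_mem_FG0 {N : ℕ} (ρ : G →* Matrix (Fin N) (Fin N) ℂ) (hρ : Continuous ρ) :
    (1 : C(G, ℂ)) ∈ FG0 ρ hρ := Submodule.subset_span (Or.inl rfl)

lemma L_cf {N : ℕ} (ρ : G →* Matrix (Fin N) (Fin N) ℂ) (hρ : Continuous ρ) (a : G)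
    (i j : Fin N) : L a (cf ρ hρ i j) = ∑ k, ρ a⁻¹ i k • cf ρ hρ k j := by
  ext y
  rw [ContinuousMap.sum_apply]
  simp_rw [ContinuousMap.smul_apply]
  rw [PWbAux.L_apply]
  change ρ (a⁻¹ * y) i j = ∑ k, ρ a⁻¹ i k • ρ y k j
  rw [map_mul, Matrix.mul_apply]
  rfl

lemma L_FG0 {N : ℕ} (ρ : G →* Matrix (Fin N) (Fin N) ℂ) (hρ : Continuous ρ) (a : G) :
    (FG0 ρ hρ).map (L a).toLinearMap ≤ FG0 ρ hρ := by
  have h1 : Submodule.span ℂ (SS ρ hρ) ≤ FG0 ρ hρ :=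
    Submodule.span_mono (fun _ h => Or.inr (Or.inl h))
  have h2 : ∀ i j, L a (cf ρ hρ i j) ∈ Submodule.span ℂ (SS ρ hρ) := by
    intro i j
    rw [L_cf]
    exact Submodule.sum_mem _ fun k _ => Submodule.smul_mem _ _ (Submodule.subset_span ⟨(k, j), rfl⟩)
  have h3 : ∀ x ∈ Submodule.span ℂ (SS ρ hρ), star x ∈ FG0 ρ hρ := by
    intro x hx
    induction hx using Submodule.span_induction with
    | mem x hx => exact Submodule.subset_span (Or.inr (Or.inr (by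
        rw [Set.mem_star, star_star]; exact hx)))
    | zero => rw [star_zero]; exact Submodule.zero_mem _
    | add x y _ _ h1 h2 => rw [star_add]; exact Submodule.add_mem _ h1 h2
    | smul c x _ h => rw [star_smul]; exact Submodule.smul_mem _ _ h
  conv_lhs => rw [FG0]
  rw [Submodule.map_span, Submodule.span_le]
  rintro _ ⟨x, hx, rfl⟩
  change L a x ∈ FG0 ρ hρ
  rcases hx with hx | hx | hx
  · rw [mem_singleton_iff] at hx
    rw [hx, map_one]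
    exact one_mem_FG0 ρ hρ
  · obtain ⟨p, rfl⟩ := hx
    exact h1 (h2 _ _)
  · obtain ⟨p, hp⟩ := hx
    have : x = star (cf ρ hρ p.1 p.2) := by
      simp only at hp
      rw [hp, star_star]
    rw [this, PWbAux.L_star]
    exact h3 _ (h2 _ _)

variable {r : ℕ → ℕ} (ρ : ∀ i, G →* Matrix (Fin (r i)) (Fin (r i)) ℂ) (hρ : ∀ i, Continuous (ρ i))

/-- finite sums of generating spaces -/
noncomputable def FF : ℕ → Submodule ℂ C(G, ℂ)
  | 0 => FG0 (ρ 0) (hρ 0)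
  | m+1 => FF m ⊔ FG0 (ρ (m+1)) (hρ (m+1))

lemma FF_fg (m : ℕ) : (FF ρ hρ m).FG := by
  induction m with
  | zero => exact FG0_fg _ _
  | succ m ih => exact ih.sup (FG0_fg _ _)

lemma FF_mono : Monotone (FF ρ hρ) := monotone_nat_of_le_succ fun _ => le_sup_left

lemma FG0_le (m : ℕ) : FG0 (ρ m) (hρ m) ≤ FF ρ hρ m := by
  cases m with
  | zero => exact le_rfl
  | succ m => exact le_sup_right

lemma one_mem_FF (m : ℕ) : (1 : C(G, ℂ)) ∈ FF ρ hρ m :=
  FF_mono ρ hρ (Nat.zero_le m) (one_mem_FG0 _ _)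

lemma L_FF (a : G) (m : ℕ) : (FF ρ hρ m).map (L a).toLinearMap ≤ FF ρ hρ m := by
  induction m with
  | zero => exact L_FG0 _ _ a
  | succ m ih =>
    change (FF ρ hρ m ⊔ FG0 (ρ (m+1)) (hρ (m+1))).map _ ≤ _
    rw [Submodule.map_sup]
    exact sup_le_sup ih (L_FG0 _ _ a)

lemma L_FFpow (a : G) (m k : ℕ) : ∀ f ∈ (FF ρ hρ m) ^ k, L a f ∈ (FF ρ hρ m) ^ k := by
  intro f hf
  have h1 : L a f ∈ ((FF ρ hρ m) ^ k).map (L a).toLinearMap := ⟨f, hf, rfl⟩
  rw [Submodule.map_pow] at h1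
  exact pow_mono' (L_FF ρ hρ a m) k h1

lemma FFpow_le (m k j : ℕ) : (FF ρ hρ m) ^ k ≤ (FF ρ hρ m) ^ (k + j) := by
  induction j with
  | zero => exact le_rfl
  | succ j ih =>
    refine ih.trans ?_
    rw [← add_assoc, Submodule.pow_succ]
    calc (FF ρ hρ m) ^ (k + j) = (FF ρ hρ m) ^ (k + j) * 1 := (Submodule.mul_one _).symm
      _ ≤ (FF ρ hρ m) ^ (k + j) * FF ρ hρ m :=
        Submodule.mul_le.mpr fun x hx y hy => Submodule.mul_mem_mul hx
          (Submodule.one_le.mpr (one_mem_FF ρ hρ m) hy)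

/-- the increasing sequence of finite dimensional invariant spaces -/
noncomputable def EE (k : ℕ) : Submodule ℂ C(G, ℂ) := (FF ρ hρ k) ^ k

lemma EE_mono : Monotone (EE ρ hρ) := by
  refine monotone_nat_of_le_succ fun k => ?_
  exact (pow_mono' (FF_mono ρ hρ (Nat.le_succ k)) k).trans (FFpow_le ρ hρ (k+1) k 1)

lemma exists_EE {x : C(G, ℂ)}
    (hx : x ∈ Algebra.adjoin ℂ ((⋃ i, SS (ρ i) (hρ i)) ∪ star (⋃ i, SS (ρ i) (hρ i)))) :
    ∃ k : ℕ, x ∈ EE ρ hρ k := by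
  have hgen : ∀ i, ∀ x ∈ FG0 (ρ i) (hρ i), ∃ k : ℕ, x ∈ EE ρ hρ k := by
    intro i x hx
    refine ⟨i+1, ?_⟩
    have h1 : x ∈ FF ρ hρ (i+1) := FF_mono ρ hρ (Nat.le_succ i) (FG0_le ρ hρ i hx)
    have h2 := FFpow_le ρ hρ (i+1) 1 i
    rw [Submodule.pow_one] at h2
    have h3 := h2 h1
    rw [add_comm 1 i] at h3
    exact h3
  induction hx using Algebra.adjoin_induction with
  | mem x hx =>
    rcases hx with hx | hx
    · obtain ⟨i, hi⟩ := mem_iUnion.1 hx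
      exact hgen i x (Submodule.subset_span (Or.inr (Or.inl hi)))
    · rw [Set.mem_star] at hx
      obtain ⟨i, hi⟩ := mem_iUnion.1 hx
      exact hgen i x (Submodule.subset_span (Or.inr (Or.inr (by rw [Set.mem_star]; exact hi))))
  | algebraMap c =>
    refine ⟨0, ?_⟩
    rw [EE, Submodule.pow_zero]
    exact Submodule.algebraMap_mem c
  | add x y _ _ h1 h2 =>
    obtain ⟨k, hk⟩ := h1
    obtain ⟨m, hm⟩ := h2
    exact ⟨k + m, Submodule.add_mem _ (EE_mono ρ hρ (Nat.le_add_right k m) hk)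
      (EE_mono ρ hρ (Nat.le_add_left m k) hm)⟩
  | mul x y _ _ h1 h2 =>
    obtain ⟨k, hk⟩ := h1
    obtain ⟨m, hm⟩ := h2
    refine ⟨k + m, ?_⟩
    by_cases h0 : m = 0
    · subst h0
      rw [EE, Submodule.pow_zero, Submodule.mem_one] at hm
      obtain ⟨r, rfl⟩ := hm
      rw [mul_comm, ← Algebra.smul_def]
      exact Submodule.smul_mem _ _ hk
    · rw [EE, Submodule.pow_add _ h0]
      exact Submodule.mul_mem_mul (pow_mono' (FF_mono ρ hρ (Nat.le_add_right k m)) k hk)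
        (pow_mono' (FF_mono ρ hρ (Nat.le_add_left m k)) m hm)

theorem denseEE (hsep : ∀ y z : G, y ≠ z → ∃ i, ρ i y ≠ ρ i z) (f : C(G, ℂ)) (ε : ℝ)
    (hε : 0 < ε) : ∃ k : ℕ, ∃ g ∈ EE ρ hρ k, ‖f - g‖ < ε := by
  have hs : (StarAlgebra.adjoin ℂ (⋃ i, SS (ρ i) (hρ i))).SeparatesPoints := by
    intro y z hyz
    obtain ⟨i, hi⟩ := hsep y z hyz
    by_contra hcon
    apply hi
    ext a b
    by_contra h2
    apply hcon
    refine ⟨cf (ρ i) (hρ i) a b, ⟨cf (ρ i) (hρ i) a b, ?_, rfl⟩, h2⟩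
    exact StarAlgebra.subset_adjoin ℂ _ (mem_iUnion.2 ⟨i, ⟨(a, b), rfl⟩⟩)
  have h1 := ContinuousMap.starSubalgebra_topologicalClosure_eq_top_of_separatesPoints
    (StarAlgebra.adjoin ℂ (⋃ i, SS (ρ i) (hρ i))) hs
  have h2 : f ∈ (StarAlgebra.adjoin ℂ (⋃ i, SS (ρ i) (hρ i))).topologicalClosure := by
    rw [h1]; trivial
  have h3 : f ∈ closure ((StarAlgebra.adjoin ℂ (⋃ i, SS (ρ i) (hρ i)) :
    StarSubalgebra ℂ C(G, ℂ)) : Set C(G, ℂ)) := h2
  rw [Metric.mem_closure_iff] at h3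
  obtain ⟨g, hg, hfg⟩ := h3 ε hε
  obtain ⟨k, hk⟩ := exists_EE ρ hρ (x := g) hg
  exact ⟨k, g, hk, by rwa [← dist_eq_norm]⟩

end

/-- countably many representations separate the points of a compact second countable group -/
theorem exists_sepSeq (G : Type) [Group G] [TopologicalSpace G] [IsTopologicalGroup G]
    [CompactSpace G] [T2Space G] [SecondCountableTopology G] :
    ∃ (r : ℕ → ℕ) (ρ : ∀ i, G →* Matrix (Fin (r i)) (Fin (r i)) ℂ), (∀ i, Continuous (ρ i)) ∧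
      ∀ y z : G, y ≠ z → ∃ i, ρ i y ≠ ρ i z := by
  let I := Σ N : ℕ, {ρ : G →* Matrix (Fin N) (Fin N) ℂ // Continuous ρ}
  let O : I → Set (G × G) := fun i => {p | i.2.1 p.1 ≠ i.2.1 p.2}
  have hO : ∀ i, IsOpen (O i) := fun i =>
    isOpen_ne_fun (i.2.2.comp continuous_fst) (i.2.2.comp continuous_snd)
  obtain ⟨T, hTc, hT⟩ := TopologicalSpace.isOpen_iUnion_countable O hO
  have hcov : ∀ y z : G, y ≠ z → ∃ i ∈ T, (y, z) ∈ O i := by
    intro y z hyz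
    have hne : y * z⁻¹ ≠ 1 := fun h => hyz (mul_inv_eq_one.1 h)
    obtain ⟨N, ρ, hρ, h1⟩ := Pool.Agent.TH264.Bridge.PWaux1.exists_rep_ne_one G (y * z⁻¹) hne
    have h2 : (y, z) ∈ ⋃ i, O i := by
      refine mem_iUnion.2 ⟨⟨N, ρ, hρ⟩, ?_⟩
      change ρ y ≠ ρ z
      intro h3
      apply h1
      rw [map_mul, h3, ← map_mul, mul_inv_cancel, map_one]
    rw [← hT] at h2
    obtain ⟨i, hi⟩ := mem_iUnion.1 h2
    obtain ⟨hi1, hi2⟩ := mem_iUnion.1 hi
    exact ⟨i, hi1, hi2⟩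
  let i0 : I := ⟨0, 1, continuous_const⟩
  have hTc' : (T ∪ {i0}).Countable := hTc.union (countable_singleton _)
  obtain ⟨φ, hφ⟩ := hTc'.exists_eq_range ⟨i0, Or.inr rfl⟩
  refine ⟨fun k => (φ k).1, fun k => (φ k).2.1, fun k => (φ k).2.2, ?_⟩
  intro y z hyz
  obtain ⟨i, hi, hi2⟩ := hcov y z hyz
  have : i ∈ T ∪ {i0} := Or.inl hi
  rw [hφ] at this
  obtain ⟨k, rfl⟩ := this
  exact ⟨k, hi2⟩

theorem pwGen (G : Type) [Group G] [TopologicalSpace G] [IsTopologicalGroup G] [CompactSpace G]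
    [T2Space G] [SecondCountableTopology G] [MeasurableSpace G] [BorelSpace G]
    (ν : Measure G) [IsProbabilityMeasure ν] [ν.IsHaarMeasure] :
    ∃ (N : ℕ → ℕ) (e : ∀ k, Fin (N k) → G → ℂ)
      (R : ∀ k, G →* (EuclideanSpace ℂ (Fin (N k)) ≃ₗᵢ[ℂ] EuclideanSpace ℂ (Fin (N k)))),
      (∀ k j, Continuous (e k j)) ∧
      (∀ k i j, ∫ y, (starRingEnd ℂ) (e k i y) * e k j y ∂ν = if i = j then 1 else 0) ∧
      (∀ k, Continuous (fun p : G × EuclideanSpace ℂ (Fin (N k)) => R k p.1 p.2)) ∧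
      (∀ k (a : G) j (y : G), e k j (a⁻¹ * y) =
        ∑ l, (R k a (EuclideanSpace.single j 1)) l * e k l y) ∧
      (∀ f : G → ℂ, Continuous f → ∀ ε : ℝ, 0 < ε →
        ∃ k, ∃ c : Fin (N k) → ℂ, ∀ y, ‖f y - ∑ j, c j * e k j y‖ < ε) := by
  obtain ⟨r, ρ, hρ, hsep⟩ := exists_sepSeq G
  have hfd : ∀ k : ℕ, FiniteDimensional ℂ (EE ρ hρ k) := fun k =>
    Module.Finite.iff_fg.mpr ((FF_fg ρ hρ k).pow k)
  have h := fun k : ℕ => oneSpace ν (EE ρ hρ k) (fun a f hf => L_FFpow ρ hρ a k k f hf)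
  choose N e R h1 h2 h3 h4 h5 using h
  refine ⟨N, e, R, h1, h2, h3, h4, ?_⟩
  intro f hf ε hε
  obtain ⟨k, g, hg, hfg⟩ := denseEE ρ hρ hsep ⟨f, hf⟩ ε hε
  obtain ⟨c, hc⟩ := h5 k g hg
  refine ⟨k, c, fun y => ?_⟩
  rw [← hc y]
  exact lt_of_le_of_lt (ContinuousMap.norm_coe_le_norm ((⟨f, hf⟩ : C(G, ℂ)) - g) y) hfg

end Pool.Agent.N255.GE
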