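import Pool.Agent.R970.WM.All
import Pool.Agent.N255.GE.PWgen

/-! Ergodicity of typical compact Lie group extensions of ergodic interval exchanges. -/

open MeasureTheory Set Filter Topology

namespace Pool.Agent.N255.GE

open R970.WM R970.WM.NE

theorem noInv (G : Type) [Group G] [TopologicalSpace G] [IsTopologicalGroup G] [CompactSpace G]
    [ConnectedSpace G] [T2Space G] [SecondCountableTopology G] [MeasurableSpace G] [BorelSpace G]
    (ν : Measure G) [IsProbabilityMeasure ν] [ν.IsHaarMeasure]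
    (n : ℕ) (T : ℝ → ℝ) (ix : ℝ → Fin n) (hT : Ergodic T U) (hix : Measurable ix)
    (s0 : St n) (hs0 : Good T ix s0) (ha : s0.a = 0) (hb : s0.b = 1) (hw : s0.w = (fun i => [i])) :
    ∀ᵐ g ∂(Measure.pi (fun _ : Fin n => ν)), ∀ f : ℝ × G → ℂ, Measurable f →
      (∃ C : ℝ, ∀ p, ‖f p‖ ≤ C) →
      (∀ᵐ p ∂(U.prod ν), f (skewG T ix g p) = f p) → ∃ z : ℂ, ∀ᵐ p ∂(U.prod ν), f p = z := by
  have hfin := finU
  obtain ⟨N, e, R, hec, hon, hRc, he, hd⟩ := pwGen G ν
  have hall : ∀ᵐ g ∂(Measure.pi (fun _ : Fin n => ν)), ∀ k : ℕ,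
      ∀ F : ℝ → EuclideanSpace ℂ (Fin (N k)), StronglyMeasurable F → (∃ C : ℝ, ∀ x, ‖F x‖ ≤ C) →
      (∀ᵐ x ∂U, F (T x) = R k (g (ix x)) (F x)) → ∀ᵐ x ∂U, ∀ a : G, R k a (F x) = F x := by
    rw [ae_all_iff]
    intro k
    exact F_fiber G ν (EuclideanSpace ℂ (Fin (N k))) (R k) (hRc k) n T ix hT hix s0 hs0 ha hb hw
  filter_upwards [hall] with g hg f hf hfb hfe
  obtain ⟨C, hC⟩ := hfb
  have hC0 : 0 ≤ C := (norm_nonneg _).trans (hC (0, 1))
  have hsec : ∀ x, Measurable (fun y : G => f (x, y)) := fun x => hf.comp measurable_prodMk_left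
  have hfe2 : ∀ᵐ x ∂U, ∀ᵐ y ∂ν, f (T x, g (ix x) * y) = 1 * f (x, y) := by
    have := Measure.ae_ae_of_ae_prod hfe
    filter_upwards [this] with x hx
    filter_upwards [hx] with y hy
    rw [one_mul]
    exact hy
  -- the coefficient vectors are fixed
  have hfix : ∀ k, ∀ᵐ x ∂U, ∀ a : G,
      R k a (four G ν (e k) (fun y => f (x, y))) = four G ν (e k) (fun y => f (x, y)) := by
    intro k
    have hbd : ∀ j, ∃ B : ℝ, ∀ y, ‖e k j y‖ ≤ B := by
      intro j
      obtain ⟨B, hB⟩ := (isCompact_univ (X := G)).exists_bound_of_continuousOn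
        (hec k j).continuousOn
      exact ⟨B, fun y => hB y (mem_univ y)⟩
    choose B hB using hbd
    have hint : ∀ x j, ‖∫ y, f (x, y) * (starRingEnd ℂ) (e k j y) ∂ν‖ ≤ C * B j := by
      intro x j
      have := norm_integral_le_of_norm_le_const (μ := ν)
        (f := fun y => f (x, y) * (starRingEnd ℂ) (e k j y)) (C := C * B j)
        (Filter.Eventually.of_forall fun y => by
          simp only [norm_mul, RCLike.norm_conj]
          exact mul_le_mul (hC _) (hB j y) (norm_nonneg _) hC0)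
      simpa using this
    refine hg k (fun x => four G ν (e k) (fun y => f (x, y))) ?_ ?_ ?_
    · unfold four
      refine Finset.stronglyMeasurable_fun_sum _ fun j _ => ?_
      refine StronglyMeasurable.smul_const ?_ _
      have h1 : StronglyMeasurable (fun p : ℝ × G => f p * (starRingEnd ℂ) (e k j p.2)) := by
        refine hf.stronglyMeasurable.mul ?_
        refine Measurable.stronglyMeasurable ?_
        exact (RCLike.continuous_conj (K := ℂ)).measurable.comp
          ((hec k j).measurable.comp measurable_snd)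
      exact h1.integral_prod_right'
    · refine ⟨∑ j, C * B j, fun x => ?_⟩
      unfold four
      refine (norm_sum_le _ _).trans (Finset.sum_le_sum fun j _ => ?_)
      rw [norm_smul]
      simpa using hint x j
    · filter_upwards [hfe2] with x hx
      have := four_trans G ν (e k) (R k) (hec k) (he k) 1 (g (ix x)) (fun y => f (x, y))
        (fun y => f (T x, y)) (hsec x) C (fun y => hC _) hx
      rw [one_smul] at this
      exact this
  have hfix2 : ∀ᵐ x ∂U, ∀ k, ∀ a : G,
      R k a (four G ν (e k) (fun y => f (x, y))) = four G ν (e k) (fun y => f (x, y)) := by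
    rw [ae_all_iff]
    exact hfix
  have hconst : ∀ᵐ x ∂U, ∀ᵐ y ∂ν, f (x, y) = ∫ y, f (x, y) ∂ν := by
    filter_upwards [hfix2] with x hx
    exact constOf G ν N e R hec hon he hd (fun y => f (x, y)) (hsec x) C (fun y => hC _) hx
  have hInt : (fun x => ∫ y, f (x, y) ∂ν) ∘ T =ᵐ[U] fun x => ∫ y, f (x, y) ∂ν := by
    filter_upwards [hfe2] with x hx
    change ∫ y, f (T x, y) ∂ν = _
    rw [← integral_mul_left_eq_self (fun y => f (T x, y)) (g (ix x)), integral_congr_ae hx,
      integral_const_mul, one_mul]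
  obtain ⟨z, hz⟩ := Ergodic.ae_eq_const_of_ae_eq_comp_ae hT
    (hf.stronglyMeasurable.integral_prod_right').aestronglyMeasurable hInt
  refine ⟨z, ?_⟩
  refine (Measure.ae_prod_iff_ae_ae (measurableSet_eq_fun hf measurable_const)).2 ?_
  filter_upwards [hconst, hz] with x hx1 hx2
  filter_upwards [hx1] with y hy
  rw [hy]
  exact hx2

theorem ergodic_of_const {Z : Type*} [MeasurableSpace Z] (μ : Measure Z) (S : Z → Z)
    (hS : MeasurePreserving S μ μ)
    (h : ∀ f : Z → ℂ, Measurable f → (∃ C : ℝ, ∀ p, ‖f p‖ ≤ C) →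
      (∀ᵐ p ∂μ, f (S p) = f p) → ∃ z : ℂ, ∀ᵐ p ∂μ, f p = z) : Ergodic S μ := by
  refine ⟨hS, ⟨fun s hs hinv => ?_⟩⟩
  obtain ⟨z, hz⟩ := h (s.indicator fun _ => (1:ℂ)) (measurable_const.indicator hs)
    ⟨1, fun p => by
      by_cases hp : p ∈ s <;> simp [hp]⟩
    (Filter.Eventually.of_forall fun p => by
      have h1 : (S p ∈ s) ↔ p ∈ s := by
        conv_rhs => rw [← hinv]
        rfl
      by_cases hp : p ∈ s
      · rw [indicator_of_mem hp, indicator_of_mem (h1.2 hp)]
      · rw [indicator_of_notMem hp, indicator_of_notMem (fun h2 => hp (h1.1 h2))])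
  rw [eventuallyConst_set]
  by_cases h1 : z = 1
  · left
    filter_upwards [hz] with p hp
    by_contra hps
    have : s.indicator (fun _ => (1:ℂ)) p = 0 := indicator_of_notMem hps _
    rw [this, h1] at hp
    exact zero_ne_one hp
  · right
    filter_upwards [hz] with p hp hps
    have : s.indicator (fun _ => (1:ℂ)) p = 1 := indicator_of_mem hps _
    rw [this] at hp
    exact h1 hp.symm

theorem two_le_of_ergodic (n : ℕ) [NeZero n] (π : Equiv.Perm (Fin n)) (lam : Fin n → ℝ)
    (hpos : ∀ k, 0 < lam k) (hsum : ∑ k, lam k = 1) (herg : Ergodic (iet π lam) U) : 2 ≤ n := by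
  have hG := F_initGood n π lam hpos hsum
  have := (F_aper n (iet π lam) (idx lam) (init π lam) herg hG).2
  simpa [init] using this

theorem ergExt (G : Type) [Group G] [TopologicalSpace G] [IsTopologicalGroup G] [CompactSpace G]
    [ConnectedSpace G] [T2Space G] [SecondCountableTopology G] [MeasurableSpace G] [BorelSpace G]
    (ν : Measure G) [IsProbabilityMeasure ν] [ν.IsHaarMeasure]
    (n : ℕ) [NeZero n] (π : Equiv.Perm (Fin n)) (lam : Fin n → ℝ)
    (hpos : ∀ k, 0 < lam k) (hsum : ∑ k, lam k = 1) (herg : Ergodic (iet π lam) U) :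
    ∀ᵐ g ∂(Measure.pi (fun _ : Fin n => ν)),
      Ergodic (skewG (iet π lam) (idx lam) g) (U.prod ν) := by
  have hn := two_le_of_ergodic n π lam hpos hsum herg
  have hix := (ietFacts n hn lam hpos hsum).1
  have hG := F_initGood n π lam hpos hsum
  have h1 := noInv G ν n (iet π lam) (idx lam) herg hix (init π lam) hG rfl rfl rfl
  filter_upwards [h1] with g hg
  exact ergodic_of_const (U.prod ν) (skewG (iet π lam) (idx lam) g)
    (mp_skewG ν (iet π lam) herg.toMeasurePreserving (idx lam) hix g) hg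

end Pool.Agent.N255.GE
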